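import Pool.Agent.R357.Jar8

set_option autoImplicit false

namespace Pool.Agent.Results.MP_9bea5e_nt.Threshold

open MeasureTheory

/-- `‖v‖`: the sup-norm distance from `v ∈ ℝ^k` to the nearest integer vector. -/
noncomputable def distInt {k : ℕ} (v : Fin k → ℝ) : ℝ :=
  ⨅ p : Fin k → ℤ, ‖fun i => v i - (p i : ℝ)‖

/-- The Diophantine exponent `ω(A)`: the supremum of all real `ω` such that
`‖A qᵀ‖ < |q|^{-ω}` for infinitely many `q ∈ ℤ^m`. -/
noncomputable def exponent {k m : ℕ} (A : Matrix (Fin k) (Fin m) ℝ) : EReal :=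
  sSup {w : EReal | ∃ ω : ℝ, w = (ω : EReal) ∧
    {q : Fin m → ℤ | distInt (A.mulVec fun j => (q j : ℝ)) <
      ‖fun j => (q j : ℝ)‖ ^ (-ω)}.Infinite}

/-- The affine subspace `L_A = {(x, (1,x) A) : x ∈ ℝ^d}` of `ℝ^{d+m}`. -/
def affineSub {d m : ℕ} (A : Matrix (Fin (d + 1)) (Fin m) ℝ) : Set (Fin (d + m) → ℝ) :=
  {y | ∃ x : Fin d → ℝ, y = Fin.append x (Matrix.vecMul (Fin.cons 1 x) A)}

/-- `S_n(ψ, θ)`: the `y` with `‖q y - θ‖ < ψ(q)` for infinitely many positive integers `q`. -/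
def approxSet {n : ℕ} (ψ : ℕ → ℝ) (θ : Fin n → ℝ) : Set (Fin n → ℝ) :=
  {y | {q : ℕ | 0 < q ∧ distInt (fun i => (q : ℝ) * y i - θ i) < ψ q}.Infinite}

lemma bdd {k : ℕ} (v : Fin k → ℝ) :
    BddBelow (Set.range fun p : Fin k → ℤ => ‖fun i => v i - (p i : ℝ)‖) :=
  ⟨0, by rintro _ ⟨p, rfl⟩; exact norm_nonneg _⟩

/-- The hypothesis `ω(A) > t` gives good approximations of arbitrarily large height. -/
lemma approx_of_exponent {d m : ℕ} (hm : 0 < m) (A : Matrix (Fin (d + 1)) (Fin m) ℝ) {t : ℝ}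
    (h : (t : EReal) < exponent A) :
    ∃ ω : ℝ, t < ω ∧ R357Jar.Approx (A 0) (fun l : Fin d => A l.succ) ω := by
  classical
  obtain ⟨w, ⟨ω, rfl, hinf⟩, hlt⟩ := lt_sSup_iff.mp h
  refine ⟨ω, by exact_mod_cast hlt, ?_⟩
  intro N
  -- find a large vector
  have hbig : ∃ q ∈ {q : Fin m → ℤ | distInt (A.mulVec fun j => (q j : ℝ)) <
      ‖fun j => (q j : ℝ)‖ ^ (-ω)}, ∃ j, ⌈|N|⌉ < |q j| := by
    by_contra hcon
    push Not at hcon
    apply hinf
    apply Set.Finite.subset (Set.Finite.pi' (fun _ : Fin m => Set.finite_Icc (-⌈|N|⌉) ⌈|N|⌉))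
    intro q hq j
    exact abs_le.mp (hcon q hq j)
  obtain ⟨q, hq, j0, hj0⟩ := hbig
  obtain ⟨l0, -, hl0⟩ := Finset.exists_max_image (Finset.univ : Finset (Fin m)) (fun j => |q j|)
    ⟨j0, Finset.mem_univ _⟩
  have hnorm : ‖fun j => (q j : ℝ)‖ = ((|q l0| : ℤ) : ℝ) := by
    apply le_antisymm
    · rw [pi_norm_le_iff_of_nonneg (by positivity)]
      intro j
      rw [Real.norm_eq_abs]
      have := hl0 j (Finset.mem_univ _)
      exact_mod_cast this
    · have := norm_le_pi_norm (fun j => (q j : ℝ)) l0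
      rw [Real.norm_eq_abs] at this
      push_cast
      exact this
  have hq' : distInt (A.mulVec fun j => (q j : ℝ)) < ((|q l0| : ℤ) : ℝ) ^ (-ω) := by
    rw [← hnorm]; exact hq
  obtain ⟨p, hp⟩ := exists_lt_of_ciInf_lt hq'
  have hcoord : ∀ i, |A.mulVec (fun j => (q j : ℝ)) i - p i| ≤ ((|q l0| : ℤ) : ℝ) ^ (-ω) := by
    intro i
    have := norm_le_pi_norm (fun i => A.mulVec (fun j => (q j : ℝ)) i - (p i : ℝ)) i
    rw [Real.norm_eq_abs] at this
    exact this.trans hp.le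
  refine ⟨q, |q l0|, l0, ?_, fun j => hl0 j (Finset.mem_univ _), rfl, p 0, fun l => p l.succ,
    ?_, ?_⟩
  · have h1 : (⌈|N|⌉ : ℝ) < ((|q j0| : ℤ) : ℝ) := by exact_mod_cast hj0
    have h2 : ((|q j0| : ℤ) : ℝ) ≤ ((|q l0| : ℤ) : ℝ) := by
      exact_mod_cast hl0 j0 (Finset.mem_univ _)
    have h3 := Int.le_ceil |N|
    have h4 := le_abs_self N
    linarith
  · have := hcoord 0
    simpa [Matrix.mulVec, dotProduct] using this
  · intro l
    have := hcoord l.succ
    simpa [Matrix.mulVec, dotProduct] using this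

/-- **Q1 holds for all `0 < s < d`.**  If `ω(A) > (m+s)/(d+1-s)` then property `C(A,s)` fails:
there are a strictly decreasing positive `ψ` with `∑ ψ(q)^{m+s} q^{d-s} < ∞` and a shift `θ`
such that `S_n(ψ,θ) ∩ L_A` has positive `s`-dimensional Hausdorff measure. -/
theorem result (d m : ℕ) (hd : 1 ≤ d) (hm : 1 ≤ m) (s : ℝ) (hs : 0 < s) (hsd : s < d)
    (A : Matrix (Fin (d + 1)) (Fin m) ℝ)
    (hA : ((((m : ℝ) + s) / (d + 1 - s) : ℝ) : EReal) < exponent A) :
    ∃ ψ : ℕ → ℝ, (∀ q, 0 < ψ q) ∧ StrictAnti ψ ∧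
      Summable (fun q : ℕ => ψ (q + 1) ^ ((m : ℝ) + s) * ((q : ℝ) + 1) ^ ((d : ℝ) - s)) ∧
      ∃ θ : Fin (d + m) → ℝ, 0 < μH[s] (approxSet ψ θ ∩ affineSub A) := by
  classical
  obtain ⟨ω, hω, happ⟩ := approx_of_exponent hm A hA
  obtain ⟨ψ, hψ1, hψ2, hψ3, θ1, θ2, hμ⟩ := R357Jar.main_core (A 0) (fun l : Fin d => A l.succ)
    hd hm hs hsd hω happ
  refine ⟨ψ, hψ1, hψ2, hψ3, Fin.append θ1 θ2, ?_⟩
  rw [pos_iff_ne_zero]
  intro hzero
  apply hμ
  let π : (Fin (d + m) → ℝ) → (Fin d → ℝ) := fun y l => y (Fin.castAdd m l)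
  have hlip : LipschitzWith 1 π := by
    apply LipschitzWith.of_dist_le_mul
    intro y y'
    rw [NNReal.coe_one, one_mul, dist_pi_le_iff dist_nonneg]
    intro l
    exact dist_le_pi_dist y y' (Fin.castAdd m l)
  have himg := hlip.hausdorffMeasure_image_le hs.le (approxSet ψ (Fin.append θ1 θ2) ∩ affineSub A)
  rw [hzero, mul_zero] at himg
  have hsub : {x : Fin d → ℝ | ∀ N : ℕ, ∃ q > N,
      R357Jar.HitAt (A 0) (fun l : Fin d => A l.succ) q x θ1 θ2 (ψ q)} ⊆
      π '' (approxSet ψ (Fin.append θ1 θ2) ∩ affineSub A) := by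
    intro x hx
    refine ⟨Fin.append x (Matrix.vecMul (Fin.cons 1 x) A), ⟨?_, x, rfl⟩, ?_⟩
    · -- infinitely many q
      apply Set.infinite_of_forall_exists_gt
      intro N
      obtain ⟨q, hqN, h1, h2⟩ := hx N
      refine ⟨q, ⟨lt_of_le_of_lt (Nat.zero_le _) hqN, ?_⟩, hqN⟩
      choose n1 hn1 using h1
      choose n2 hn2 using h2
      refine lt_of_le_of_lt (ciInf_le (bdd _) (Fin.append n1 n2)) ?_
      rw [pi_norm_lt_iff (hψ1 q)]
      intro i
      refine Fin.addCases (fun l => ?_) (fun j => ?_) i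
      · simp only [Fin.append_left]
        rw [Real.norm_eq_abs]; exact hn1 l
      · simp only [Fin.append_right]
        rw [Real.norm_eq_abs]
        have e : R357Jar.lin (A 0) (fun l : Fin d => A l.succ) q (fun l => (q : ℝ) * x l) j =
            (q : ℝ) * Matrix.vecMul (Fin.cons 1 x) A j := by
          simp only [R357Jar.lin, Matrix.vecMul, dotProduct, Fin.sum_univ_succ, Fin.cons_zero,
            Fin.cons_succ, one_mul, mul_add, Finset.mul_sum]
          congr 1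
          apply Finset.sum_congr rfl
          intro l _; ring
        rw [← e]; exact hn2 j
    · funext l
      simp only [π, Fin.append_left]
  exact measure_mono_null hsub (le_antisymm himg zero_le)

end Pool.Agent.Results.MP_9bea5e_nt.Threshold
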